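import Mathlib

/-!
# MP_72856e_co: graphs whose clique graph is an odd cycle and with `d(G) < c(G)`

For every odd `n = 2h + 5 ≥ 5` there is a graph `G` with `K(G) ≅ C_n` and `d(G) < c(G)`. The vertices are
the pairs `(i, s)`, `i` in `Fin n`, `s` in `Fin (h + 4)`. The maximal cliques are the sets `Q i` consisting
of all `(i, s)` and of all `(i + 1, s)` with `s ≠ 0`; they have `2h + 7` vertices. A dominating set meets all
`n` cliques and each vertex lies in at most two of them, so it has at least `h + 3` vertices.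
-/

set_option autoImplicit false

namespace Pool.Agent.Results.MP_72856e_co.OddCycleCliqueGraph

/-- `D` is dominating: every vertex not in `D` is adjacent to some vertex of `D`. -/
def IsDominating {V : Type} (G : SimpleGraph V) (D : Set V) : Prop :=
  ∀ v, v ∉ D → ∃ u ∈ D, G.Adj v u

/-- The domatic number: the largest `k` such that the vertex set has a partition into `k` dominating
sets (the classes of a colouring with `k` colours). -/
noncomputable def domaticNumber {V : Type} (G : SimpleGraph V) : ℕ :=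
  sSup {k : ℕ | ∃ c : V → Fin k, ∀ j : Fin k, IsDominating G {v | c v = j}}

/-- `c(G)`: the least number of vertices of a maximal complete subgraph. -/
noncomputable def minCliqueOrder {V : Type} (G : SimpleGraph V) : ℕ :=
  sInf {k : ℕ | ∃ s : Set V, Maximal G.IsClique s ∧ s.ncard = k}

/-- The clique graph `K(G)`: the vertices are the maximal complete subgraphs, adjacent when they are
distinct and share a vertex. -/
def cliqueGraph {V : Type} (G : SimpleGraph V) : SimpleGraph {s : Set V // Maximal G.IsClique s} where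
  Adj s t := s ≠ t ∧ (s.1 ∩ t.1).Nonempty
  symm := ⟨by
    rintro s t ⟨h1, h2⟩
    exact ⟨h1.symm, by rwa [Set.inter_comm]⟩⟩
  loopless := ⟨fun s h => h.1 rfl⟩

/-- Vertices of the example. -/
abbrev Vert (h : ℕ) : Type := Fin (2 * h + 5) × Fin (h + 4)

/-- The clique `Q i`. -/
def Q {h : ℕ} (i : Fin (2 * h + 5)) : Set (Vert h) := {v | v.1 = i ∨ (v.1 = i + 1 ∧ v.2 ≠ 0)}

/-- The example: two vertices are adjacent when they lie in a common `Q i`. -/
def G (h : ℕ) : SimpleGraph (Vert h) where
  Adj u v := u ≠ v ∧ ∃ i, u ∈ Q i ∧ v ∈ Q i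
  symm := ⟨by
    rintro u v ⟨h1, i, h2, h3⟩
    exact ⟨h1.symm, i, h3, h2⟩⟩
  loopless := ⟨fun u h => h.1 rfl⟩

variable {h : ℕ}

theorem Q_clique (i : Fin (2 * h + 5)) : (G h).IsClique (Q i) :=
  fun _ hu _ hv huv => ⟨huv, i, hu, hv⟩

theorem one_ne : (1 : Fin (2 * h + 5)) ≠ 0 := by
  intro hh
  have := congrArg Fin.val hh
  simp at this

theorem two_ne : (1 : Fin (2 * h + 5)) + 1 ≠ 0 := by
  intro hh
  have h1 := congrArg Fin.val hh
  have e : ((1 : Fin (2 * h + 5))).val = 1 := by
    rw [Fin.val_one', Nat.mod_eq_of_lt (by omega)]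
  rw [Fin.val_add, e, Nat.mod_eq_of_lt (by omega)] at h1
  simp at h1

theorem three_ne : (1 : Fin (2 * h + 5)) + 1 + 1 ≠ 0 := by
  intro hh
  have h1 := congrArg Fin.val hh
  have e : ((1 : Fin (2 * h + 5))).val = 1 := by
    rw [Fin.val_one', Nat.mod_eq_of_lt (by omega)]
  have e2 : ((1 : Fin (2 * h + 5)) + 1).val = 2 := by
    rw [Fin.val_add, e, Nat.mod_eq_of_lt (by omega)]
  rw [Fin.val_add, e2, e, Nat.mod_eq_of_lt (by omega)] at h1
  simp at h1

theorem sub_clique {s : Set (Vert h)} (hs : (G h).IsClique s) : ∃ i, s ⊆ Q i := by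
  by_cases h0 : ∃ v ∈ s, v.2 = 0
  · obtain ⟨v, hv, hv0⟩ := h0
    refine ⟨v.1, fun u hu => ?_⟩
    by_cases huv : u = v
    · left; rw [huv]
    · obtain ⟨_, j, h1, h2⟩ := hs hu hv huv
      rcases h2 with h2 | h2
      · rw [h2]; exact h1
      · exact absurd hv0 h2.2
  · push Not at h0
    by_cases hne : s.Nonempty
    · obtain ⟨v, hv⟩ := hne
      -- first coordinates of members of a clique differ by at most one
      have key : ∀ x ∈ s, ∀ y ∈ s, y.1 + 1 = x.1 ∨ y.1 = x.1 ∨ y.1 = x.1 + 1 := by
        intro x hx y hy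
        by_cases hxy : x = y
        · right; left; rw [hxy]
        · obtain ⟨_, j, h1, h2⟩ := hs hx hy hxy
          rcases h1 with h1 | ⟨h1, _⟩ <;> rcases h2 with h2 | ⟨h2, _⟩
          · right; left; rw [h1, h2]
          · right; right; rw [h1, h2]
          · left; rw [h1, h2]
          · right; left; rw [h1, h2]
      by_cases hup : ∃ u ∈ s, u.1 = v.1 + 1
      · obtain ⟨u, hu, hu1⟩ := hup
        refine ⟨v.1, fun x hx => ?_⟩
        rcases key v hv x hx with k1 | k1 | k1
        · rcases key u hu x hx with k2 | k2 | k2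
          · exfalso
            rw [hu1] at k2
            have : x.1 = v.1 := add_right_cancel k2
            rw [this] at k1
            simp at k1
          · exfalso
            rw [hu1] at k2
            rw [k2, add_assoc] at k1
            exact two_ne (by simpa using k1)
          · exfalso
            rw [hu1] at k2
            rw [k2, add_assoc, add_assoc] at k1
            exact three_ne (by rw [add_assoc]; simpa using k1)
        · exact Or.inl k1
        · exact Or.inr ⟨k1, h0 x hx⟩
      · push Not at hup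
        refine ⟨v.1 - 1, fun x hx => ?_⟩
        rcases key v hv x hx with k1 | k1 | k1
        · left; rw [← k1, add_sub_cancel_right]
        · right
          refine ⟨?_, h0 x hx⟩
          rw [sub_add_cancel]; exact k1
        · exact absurd k1 (hup x hx)
    · rw [Set.not_nonempty_iff_eq_empty] at hne
      exact ⟨0, by rw [hne]; exact Set.empty_subset _⟩

theorem eq_Q {s : Set (Vert h)} (hs : Maximal (G h).IsClique s) : ∃ i, s = Q i := by
  obtain ⟨i, hi⟩ := sub_clique hs.prop
  exact ⟨i, Set.Subset.antisymm hi (hs.le_of_ge (Q_clique i) hi)⟩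

theorem Q_inj {i j : Fin (2 * h + 5)} (hij : (Q i : Set (Vert h)) ⊆ Q j) : i = j := by
  have : ((i, 0) : Vert h) ∈ Q j := hij (Or.inl rfl)
  rcases this with h1 | h1
  · exact h1
  · exact absurd rfl h1.2

theorem Q_maximal (i : Fin (2 * h + 5)) : Maximal (G h).IsClique (Q i) := by
  refine ⟨Q_clique i, fun t ht hle => ?_⟩
  obtain ⟨j, hj⟩ := sub_clique ht
  have := Q_inj (hle.trans hj)
  rw [this]
  exact hj

theorem Q_eq_image (i : Fin (2 * h + 5)) : (Q i : Set (Vert h)) =
    ((Finset.univ.image fun s : Fin (h + 4) => ((i, s) : Vert h)) ∪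
      ((Finset.univ.erase (0 : Fin (h + 4))).image fun s => ((i + 1, s) : Vert h)) :
        Finset (Vert h)) := by
  ext ⟨a, s⟩
  simp only [Q, Set.mem_ofPred_eq, Finset.coe_union, Finset.coe_image, Set.mem_union, Set.mem_image,
    Finset.mem_coe, Finset.mem_univ, true_and, Finset.mem_erase, and_true, Prod.mk.injEq]
  constructor
  · rintro (h1 | ⟨h1, h2⟩)
    · left; exact ⟨s, h1.symm, rfl⟩
    · right; exact ⟨s, h2, h1.symm, rfl⟩
  · rintro (⟨x, h1, _⟩ | ⟨x, h2, h1, h3⟩)
    · left; exact h1.symm
    · right; exact ⟨h1.symm, by rw [← h3]; exact h2⟩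

theorem Q_ncard (i : Fin (2 * h + 5)) : (Q i : Set (Vert h)).ncard = 2 * h + 7 := by
  rw [Q_eq_image, Set.ncard_coe_finset, Finset.card_union_of_disjoint]
  · rw [Finset.card_image_of_injective _ (fun a b hab => (Prod.mk.inj hab).2),
      Finset.card_image_of_injective _ (fun a b hab => (Prod.mk.inj hab).2),
      Finset.card_erase_of_mem (Finset.mem_univ _), Finset.card_univ, Fintype.card_fin]
    omega
  · rw [Finset.disjoint_left]
    intro v hv hv'
    obtain ⟨a, _, rfl⟩ := Finset.mem_image.1 hv
    obtain ⟨b, _, hb⟩ := Finset.mem_image.1 hv'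
    have := (Prod.mk.inj hb).1
    simp at this

theorem minCliqueOrder_eq : minCliqueOrder (G h) = 2 * h + 7 := by
  unfold minCliqueOrder
  have : {k : ℕ | ∃ s : Set (Vert h), Maximal (G h).IsClique s ∧ s.ncard = k} = {2 * h + 7} := by
    ext k
    constructor
    · rintro ⟨s, hs, rfl⟩
      obtain ⟨i, rfl⟩ := eq_Q hs
      exact Q_ncard i
    · rintro rfl
      exact ⟨Q 0, Q_maximal 0, Q_ncard 0⟩
  rw [this, csInf_singleton]

theorem dominating_card (D : Finset (Vert h)) (hD : IsDominating (G h) (D : Set (Vert h))) :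
    h + 3 ≤ D.card := by
  classical
  have hit : ∀ i : Fin (2 * h + 5), ∃ v ∈ D, v ∈ (Q i : Set (Vert h)) := by
    intro i
    by_cases hi : ((i, 0) : Vert h) ∈ D
    · exact ⟨_, hi, Or.inl rfl⟩
    · obtain ⟨u, hu, _, j, h1, h2⟩ := hD (i, 0) (by simpa using hi)
      rcases h1 with h1 | h1
      · simp only at h1
        rw [← h1] at h2
        exact ⟨u, by simpa using hu, h2⟩
      · exact absurd rfl h1.2
  have h1 : (Finset.univ : Finset (Fin (2 * h + 5))) ⊆
      D.biUnion fun v => ({v.1, v.1 - 1} : Finset (Fin (2 * h + 5))) := by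
    intro i _
    obtain ⟨v, hv, hvi⟩ := hit i
    rw [Finset.mem_biUnion]
    refine ⟨v, hv, ?_⟩
    rcases hvi with h1 | h1
    · rw [h1]; simp
    · rw [h1.1]; simp
  have h2 := Finset.card_le_card h1
  rw [Finset.card_univ, Fintype.card_fin] at h2
  have h3 : (D.biUnion fun v => ({v.1, v.1 - 1} : Finset (Fin (2 * h + 5)))).card ≤ D.card * 2 := by
    apply Finset.card_biUnion_le_card_mul
    intro v _
    exact Finset.card_le_two
  omega

theorem domatic_le (k : ℕ) (c : Vert h → Fin k) (hc : ∀ j : Fin k, IsDominating (G h) {v | c v = j}) :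
    k * (h + 3) ≤ (2 * h + 5) * (h + 4) := by
  classical
  have h1 : (Finset.univ : Finset (Vert h)).card = ∑ j ∈ (Finset.univ : Finset (Fin k)),
      ((Finset.univ : Finset (Vert h)).filter fun v => c v = j).card :=
    Finset.card_eq_sum_card_fiberwise fun v _ => Finset.mem_univ _
  rw [Finset.card_univ, Fintype.card_prod, Fintype.card_fin, Fintype.card_fin] at h1
  rw [h1]
  calc k * (h + 3) = ∑ _j ∈ (Finset.univ : Finset (Fin k)), (h + 3) := by simp
    _ ≤ _ := by
      apply Finset.sum_le_sum
      intro j _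
      apply dominating_card
      have : (((Finset.univ : Finset (Vert h)).filter fun v => c v = j : Finset (Vert h)) :
          Set (Vert h)) = {v | c v = j} := by ext v; simp
      rw [this]
      exact hc j

theorem domaticNumber_lt : domaticNumber (G h) < 2 * h + 7 := by
  rw [Nat.lt_iff_add_one_le, Nat.add_one_le_iff]
  have : domaticNumber (G h) ≤ 2 * h + 6 := by
    apply csSup_le'
    rintro k ⟨c, hc⟩
    have h1 := domatic_le k c hc
    by_contra hcon
    push Not at hcon
    have h2 : 2 * h + 7 ≤ k := by omega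
    have h3 : (2 * h + 7) * (h + 3) ≤ k * (h + 3) := Nat.mul_le_mul_right _ h2
    nlinarith
  omega

/-- The clique graph of the example is the cycle. -/
noncomputable def iso (h : ℕ) : SimpleGraph.cycleGraph (2 * h + 5) ≃g cliqueGraph (G h) where
  toEquiv := Equiv.ofBijective (fun i => ⟨Q i, Q_maximal i⟩) ⟨by
      intro i j hij
      exact Q_inj (Subtype.mk.inj hij).subset, by
      rintro ⟨s, hs⟩
      obtain ⟨i, rfl⟩ := eq_Q hs
      exact ⟨i, rfl⟩⟩
  map_rel_iff' := by
    intro i j
    have e : (SimpleGraph.cycleGraph (2 * h + 5)).Adj i j ↔ i - j = 1 ∨ j - i = 1 :=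
      SimpleGraph.cycleGraph_adj
    rw [e]
    change ((⟨Q i, Q_maximal i⟩ : {s : Set (Vert h) // Maximal (G h).IsClique s}) ≠
      ⟨Q j, Q_maximal j⟩ ∧ ((Q i : Set (Vert h)) ∩ Q j).Nonempty) ↔ _
    constructor
    · rintro ⟨h1, v, h2, h3⟩
      have hij : i ≠ j := by
        rintro rfl
        exact h1 rfl
      rcases h2 with h2 | ⟨h2, _⟩ <;> rcases h3 with h3 | ⟨h3, _⟩
      · exact absurd (h2.symm.trans h3) hij
      · left
        rw [← h2, h3, add_sub_cancel_left]
      · right
        rw [← h3, h2, add_sub_cancel_left]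
      · exact absurd (add_right_cancel (h2.symm.trans h3)) hij
    · intro h1
      have hij : i ≠ j := by
        rintro rfl
        rw [sub_self] at h1
        rcases h1 with h1 | h1
        · exact one_ne h1.symm
        · exact one_ne h1.symm
      have h10 : (1 : Fin (h + 4)) ≠ 0 := by
        intro hh
        have := congrArg Fin.val hh
        simp at this
      refine ⟨fun hh => hij (Q_inj (Subtype.mk.inj hh).subset), ?_⟩
      rcases h1 with h1 | h1
      · refine ⟨(i, 1), Or.inl rfl, Or.inr ⟨?_, h10⟩⟩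
        simp only
        rw [← h1]; abel
      · refine ⟨(j, 1), Or.inr ⟨?_, h10⟩, Or.inl rfl⟩
        simp only
        rw [← h1]; abel

/-- For every odd `n ≥ 5` there is a finite graph `G` whose clique graph is the cycle `C_n` and which
satisfies `d(G) < c(G)`. -/
theorem result : ∀ n : ℕ, Odd n → 5 ≤ n → ∃ (V : Type) (_ : Fintype V) (G : SimpleGraph V),
    Nonempty (cliqueGraph G ≃g SimpleGraph.cycleGraph n) ∧ domaticNumber G < minCliqueOrder G := by
  intro n hodd hn
  obtain ⟨k, hk⟩ := hodd
  obtain ⟨h, rfl⟩ : ∃ h, n = 2 * h + 5 := ⟨k - 2, by omega⟩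
  refine ⟨Vert h, inferInstance, G h, ⟨(iso h).symm⟩, ?_⟩
  rw [minCliqueOrder_eq]
  exact domaticNumber_lt

end Pool.Agent.Results.MP_72856e_co.OddCycleCliqueGraph
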